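import Mathlib
import Pool.Prelude.Def_F_458e953d
import Pool.Agent.Lib.MP_117856_lc.Problem
import Pool.Agent.Lib.MP_117856_lc.OutputPoly
import Pool.Agent.Lib.PolyTime.CookLevin
import Pool.Agent.Lib.PolyTime.Reduce

/-!
# Recognising equistable graphs is coNP-hard

For every language `L` in coNP there is a polynomial-time (Turing machine) many-one reduction
from `L` to the problem EQUISTABLE: does the input encode an equistable graph?
Consequently EQUISTABLE is not in NP unless NP = coNP.
-/

namespace Pool.Agent.Results.MP_117856_lc.CoNPHard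

open Pool.Agent.Lib.PolyTime Pool.Agent.Lib.MP_117856_lc N68a2faeb

/-- EQUISTABLE is coNP-hard under polynomial-time many-one reductions. -/
theorem hard : ∀ L ∈ N68a2faeb.coNP, N793a5b8e.ManyOneReducible L EQUISTABLE := by
  intro L hL
  obtain ⟨p, R, hR, hLR⟩ := hL
  obtain ⟨TC⟩ := hR
  refine ⟨fun x => encodeGraph (outGraph (flat TC.tm) TC.tm.k₀ (vq₀ TC) (vsy TC) (vacc TC)
    (templateOf p (vblank TC p) x)), ?_, ?_⟩
  · refine isPolyTime_of_isPoly ?_
    exact IsPoly.comp (isPoly_encodeGraph (flat TC.tm) TC.tm.k₀ (vq₀ TC) (vsy TC) (vacc TC))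
      (isPoly_templateOf p (vblank TC p)) (fun _ _ => trivial)
  · intro x
    have h1 : (Lᶜ x = true) ↔ ∃ A, Tab (flat TC.tm) TC.tm.k₀ (vq₀ TC) (vsy TC) (vacc TC)
        (templateOf p (vblank TC p) x) A := (hLR x).trans (tab_iff TC p x).symm
    have h2 : EQUISTABLE (encodeGraph (outGraph (flat TC.tm) TC.tm.k₀ (vq₀ TC) (vsy TC)
        (vacc TC) (templateOf p (vblank TC p) x))) = true ↔ ¬ (Lᶜ x = true) := by
      rw [EQUISTABLE_encodeGraph, equistable_outGraph,
        equistable_tabGraph _ _ _ _ _ _ (two_le_length_templateOf TC p x), h1]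
    have h3 : (Lᶜ x = true) ↔ ¬ (L x = true) := by
      change (!(L x)) = true ↔ _
      simp
    rw [h3, not_not] at h2
    exact Bool.eq_iff_iff.2 h2.symm

/-- EQUISTABLE is coNP-hard under polynomial-time many-one reductions, and it is not in NP unless
NP = coNP. -/
theorem result : (∀ L ∈ N68a2faeb.coNP, N793a5b8e.ManyOneReducible L EQUISTABLE) ∧
    (N68a2faeb.NP ≠ N68a2faeb.coNP → EQUISTABLE ∉ N68a2faeb.NP) :=
  ⟨hard, fun hne hmem => hne (NP_eq_coNP_of_mem hard hmem)⟩

end Pool.Agent.Results.MP_117856_lc.CoNPHard
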